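import Mathlib
import Pool.Agent.Work.MP_79a1cb_co.Defs
import Pool.Agent.Work.MP_79a1cb_co.Final

/-!
# Long `a_n`-free subsequences of arbitrary sequences

For every `n ≥ 5`, `ss(m, a_n) / m ^ (1/2)` tends to infinity with `m`.

Idea. Compositions of `fan structures` give `ababa`-free sequences on `N` letters and at most `N`
blocks, each letter occurring `k` times, for every `k`. A long word with fewer than `C m ^ (1/2)`
letters, each occurring fewer than `C m ^ (1/2)` times, is cut in windows; in each window that
still has many unused positions either a frequent letter, or pairwise disjoint bunches of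
occurrences, or (after piercing and the Erdős-Szekeres theorem) a copy of the extremal structure
is found, which uses at most `s / 4` letters and has at least `D s` positions.
-/

namespace Pool.Agent.Results.MP_79a1cb_co.OmegaSqrt

open Pool.Agent.Work.MP_79a1cb_co

theorem result (n : ℕ) (hn : 5 ≤ n) :
    Filter.Tendsto (fun m : ℕ => (ss m (alt n) : ℝ) / √(m : ℝ)) Filter.atTop Filter.atTop :=
  main n hn

end Pool.Agent.Results.MP_79a1cb_co.OmegaSqrt
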